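import Pool.Agent.Helper41.LF.GoalsA

/-! # LF, packet REM: polynomials are good functions -/

set_option autoImplicit false

namespace Pool.Agent.Helper41.LF

open MeasureTheory

theorem thm_REM (hL : S_LAG) (hS : S_SPC) : S_REM := by
  intro D hD
  have hD0 : (0 : ℝ) < D := by exact_mod_cast hD
  refine ⟨D * (D + 2), by positivity, ?_⟩
  intro f hf u v A t huv hA hy
  obtain ⟨y, hy, hAy⟩ := hy
  rcases le_or_gt t 0 with ht | ht
  · have : {x : ℝ | x ∈ Set.Icc u v ∧ |f.eval x| < t} = ∅ := by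
      ext x
      simp only [Set.mem_ofPred_eq, Set.mem_empty_iff_false, iff_false, not_and, not_lt]
      exact fun _ => ht.trans (abs_nonneg _)
    rw [this, measure_empty]
    exact bot_le
  · have hvu : 0 < v - u := sub_pos.2 huv
    have hr : 0 < (t / A) ^ (1 / (D : ℝ)) := Real.rpow_pos_of_pos (div_pos ht hA) _
    set ρ : ℝ := (t / A) ^ (1 / (D : ℝ)) with hρ
    have hρD : ρ ^ D = t / A := by
      rw [hρ, ← Real.rpow_natCast, ← Real.rpow_mul (div_pos ht hA).le,
        one_div_mul_cancel hD0.ne', Real.rpow_one]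
    set s : ℝ := (D + 2) * ρ * (v - u) with hs
    have hs0 : 0 < s := by positivity
    by_contra hcon
    rw [not_le] at hcon
    have e1 : (D : ℝ) * (D + 2) * ρ * (v - u) = (D : ℝ) * s := by rw [hs]; ring
    rw [e1] at hcon
    obtain ⟨x, hxE, hxs⟩ := hS D _ u v s hs0 (fun x hx => hx.1) hcon
    have h1 := hL D f hf u v s t hs0 x (fun i => (hxE i).1) hxs (fun i => (hxE i).2.le) y hy
    have h2 : (v - u) / s = 1 / ((D + 2) * ρ) := by
      rw [hs]
      field_simp
    rw [h2, div_pow, one_pow, mul_pow, hρD] at h1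
    have h3 : ((D : ℝ) + 1) * t * (1 / ((D + 2) ^ D * (t / A))) = A * ((D + 1) / (D + 2) ^ D) := by
      field_simp
    rw [h3] at h1
    have h4 : ((D : ℝ) + 1) / (D + 2) ^ D < 1 := by
      rw [div_lt_one (by positivity)]
      have h5 : ((D : ℝ) + 2) ^ 1 ≤ (D + 2) ^ D :=
        pow_le_pow_right₀ (by linarith) hD
      rw [pow_one] at h5
      linarith
    have h6 : A * (((D : ℝ) + 1) / (D + 2) ^ D) < A * 1 := mul_lt_mul_of_pos_left h4 hA
    linarith

end Pool.Agent.Helper41.LF
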